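import Mathlib

/-!
# MP_a46e5c_co: the Helly number of every exponential lattice is finite, in all dimensions

Points of the lattice are written in homogeneous exponent coordinates `p : ι → ℤ`
(`ι = Option (Fin d)`, `p none = 0`).  A finite set `T` is critical if no lattice point lies in all the
cones spanned by `T \ {p}`.  A long chain in `T` for which all differences of the columns (in some
order of the columns) increase by a large constant produces a lattice point `q` in the interior of
two disjoint simplices with vertices in `T`, so `T` is not critical.  By induction on the number of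
columns the fibres of all forms `p k - p l` on a critical set are bounded, and a labelling by
residues, positions in the fibres and lengths of the longest chains bounds the size of `T`.
-/

set_option autoImplicit false

open Finset

noncomputable section

namespace Pool.Agent.Results.MP_a46e5c_co.FiniteHelly

/-- The `d`-dimensional exponential lattice `L_d(α) = {α ^ n : n ≥ 0}^d`. -/
def expLattice (α : ℝ) (d : ℕ) : Set (Fin d → ℝ) := {x | ∀ i, ∃ n : ℕ, x i = α ^ n}

/-- Whenever, in a finite family of convex sets, each subfamily of at most `h` members has a common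
point in `S`, the whole family has a common point in `S`. -/
def HellyProperty {d : ℕ} (S : Set (Fin d → ℝ)) (h : ℕ) : Prop :=
  ∀ F : Finset (Set (Fin d → ℝ)), (∀ C ∈ F, Convex ℝ C) →
    (∀ G : Finset (Set (Fin d → ℝ)), G ⊆ F → G.card ≤ h → ∃ x ∈ S, ∀ C ∈ G, x ∈ C) →
    ∃ x ∈ S, ∀ C ∈ F, x ∈ C

/-- The Helly number `h(S)`: the least `h` with the Helly property, `⊤` if there is none. -/
def hellyNumber {d : ℕ} (S : Set (Fin d → ℝ)) : ℕ∞ :=
  ⨅ (h : ℕ) (_ : HellyProperty S h), (h : ℕ∞)

section General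

variable {ι : Type} [Fintype ι] [DecidableEq ι]

/-- `q` is in the cone spanned by `A` -/
def Rel (α : ℝ) (A : Finset (ι → ℤ)) (q : ι → ℤ) : Prop :=
  ∃ w : (ι → ℤ) → ℝ, (∀ p, 0 ≤ w p) ∧ ∀ k, ∑ p ∈ A, w p * α ^ (p k) = α ^ (q k)

/-- no lattice point is in all the cones of `T \ {p}` -/
def Crit (α : ℝ) (T : Finset (ι → ℤ)) : Prop := ∀ q : ι → ℤ, ∃ p ∈ T, ¬ Rel α (T.erase p) q

omit [DecidableEq ι] in
lemma Rel.mono {α : ℝ} {A B : Finset (ι → ℤ)} (h : A ⊆ B) {q : ι → ℤ} (hA : Rel α A q) :
    Rel α B q := by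
  obtain ⟨w, h0, hw⟩ := hA
  refine ⟨fun p => if p ∈ A then w p else 0, ?_, ?_⟩
  · intro p
    dsimp only
    split_ifs
    exacts [h0 p, le_rfl]
  · intro k
    rw [← hw k, ← Finset.sum_subset h]
    · exact Finset.sum_congr rfl (fun p hp => by simp [hp])
    · intro p _ hp
      simp [hp]

lemma Crit.mono {α : ℝ} {A B : Finset (ι → ℤ)} (h : A ⊆ B) (hne : A.Nonempty) (hB : Crit α B) :
    Crit α A := by
  intro q
  by_contra hcon
  push Not at hcon
  obtain ⟨p, hp, hr⟩ := hB q
  apply hr
  by_cases hpA : p ∈ A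
  · exact (hcon p hpA).mono (Finset.erase_subset_erase p h)
  · obtain ⟨p', hp'⟩ := hne
    exact (hcon p' hp').mono (fun x hx => by
      have hxA := Finset.mem_of_mem_erase hx
      exact Finset.mem_erase.2 ⟨fun e => hpA (e ▸ hxA), h hxA⟩)

omit [DecidableEq ι] in
lemma rel_of_sum {α : ℝ} {n : ℕ} (A : Finset (ι → ℤ)) (q : ι → ℤ) (x : Fin n → (ι → ℤ))
    (hx : ∀ j, x j ∈ A) (v : Fin n → ℝ) (hv : ∀ j, 0 ≤ v j)
    (h : ∀ c, ∑ j, v j * α ^ (x j c) = α ^ (q c)) : Rel α A q := by
  refine ⟨fun p => ∑ j, if x j = p then v j else 0,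
    fun p => Finset.sum_nonneg fun j _ => by split_ifs; exacts [hv j, le_rfl], fun c => ?_⟩
  rw [← h c]
  simp_rw [Finset.sum_mul]
  rw [Finset.sum_comm]
  refine Finset.sum_congr rfl fun j _ => ?_
  rw [Finset.sum_eq_single (x j)]
  · simp
  · intro p _ hp
    simp [Ne.symm hp]
  · intro hnot
    exact absurd (hx j) hnot

end General

/-- A nonnegative matrix with unit diagonal and small other entries. -/
lemma exists_solution {n : ℕ} (M : Matrix (Fin n) (Fin n) ℝ) (ε : ℝ) (hε : 0 ≤ ε)
    (hn : (n : ℝ) * ε ≤ 1 / 4) (hd : ∀ k, M k k = 1) (h0 : ∀ i k, 0 ≤ M i k)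
    (ho : ∀ i k, i ≠ k → M i k ≤ ε) :
    ∃ w : Fin n → ℝ, (∀ i, 0 ≤ w i) ∧ ∀ k, ∑ i, w i * M i k = 1 := by
  have hsum : ∀ k : Fin n, ∑ _i ∈ (Finset.univ : Finset (Fin n)).erase k, ε ≤ 1 / 4 := by
    intro k
    rw [Finset.sum_const, nsmul_eq_mul]
    refine le_trans ?_ hn
    refine mul_le_mul_of_nonneg_right ?_ hε
    have : (Finset.univ.erase k : Finset (Fin n)).card ≤ n := by
      refine (Finset.card_le_card (Finset.erase_subset _ _)).trans ?_
      simp
    exact_mod_cast this
  have hdet : M.det ≠ 0 := by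
    apply det_ne_zero_of_sum_col_lt_diag
    intro k
    rw [hd k, norm_one]
    have : ∑ i ∈ Finset.univ.erase k, ‖M i k‖ ≤ ∑ _i ∈ (Finset.univ : Finset (Fin n)).erase k, ε := by
      refine Finset.sum_le_sum fun i hi => ?_
      rw [Real.norm_eq_abs, abs_of_nonneg (h0 i k)]
      exact ho i k (Finset.ne_of_mem_erase hi)
    linarith [hsum k]
  have hunit : IsUnit M.det := isUnit_iff_ne_zero.2 hdet
  set w : Fin n → ℝ := Matrix.vecMul (fun _ => (1 : ℝ)) M⁻¹ with hw
  have hwM : Matrix.vecMul w M = fun _ => (1 : ℝ) := by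
    rw [hw, Matrix.vecMul_vecMul, Matrix.nonsing_inv_mul M hunit, Matrix.vecMul_one]
  have heq : ∀ k, ∑ i, w i * M i k = 1 := fun k => by
    have := congrFun hwM k
    simpa [Matrix.vecMul, dotProduct] using this
  refine ⟨w, ?_, heq⟩
  intro i
  obtain ⟨i0, -, hi0⟩ := Finset.exists_max_image Finset.univ (fun i => |w i|) ⟨i, Finset.mem_univ i⟩
  have hb : ∀ k, |1 - w k| ≤ |w i0| / 4 := by
    intro k
    have h1 := heq k
    rw [← Finset.add_sum_erase _ _ (Finset.mem_univ k), hd k, mul_one] at h1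
    have h2 : 1 - w k = ∑ i ∈ Finset.univ.erase k, w i * M i k := by linarith
    rw [h2]
    refine (Finset.abs_sum_le_sum_abs _ _).trans ?_
    have h3 : ∑ i ∈ Finset.univ.erase k, |w i * M i k| ≤
        ∑ _i ∈ (Finset.univ : Finset (Fin n)).erase k, |w i0| * ε := by
      refine Finset.sum_le_sum fun i hi => ?_
      rw [abs_mul, abs_of_nonneg (h0 i k)]
      exact mul_le_mul (hi0 i (Finset.mem_univ i)) (ho i k (Finset.ne_of_mem_erase hi)) (h0 i k)
        (abs_nonneg _)
    refine h3.trans ?_
    rw [← Finset.mul_sum]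
    nlinarith [hsum k, abs_nonneg (w i0)]
  have h4 := hb i0
  have h5 : |w i0| ≤ 4 / 3 := by
    have : |w i0| ≤ 1 + |1 - w i0| := by
      have h6 : w i0 = 1 - (1 - w i0) := by ring
      calc |w i0| = |1 - (1 - w i0)| := by rw [← h6]
        _ ≤ |(1 : ℝ)| + |1 - w i0| := abs_sub _ _
        _ = 1 + |1 - w i0| := by rw [abs_one]
    linarith
  have h7 := (abs_le.1 (hb i)).2
  linarith

/-- chains -/
def Chain {β : Type} (r : β → β → Prop) (T : Finset β) (k : ℕ) (p : β) : Prop :=
  ∃ s : ℕ → β, (∀ i ≤ k, s i ∈ T) ∧ (∀ i < k, r (s i) (s (i + 1))) ∧ s k = p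

lemma chain_zero {β : Type} (r : β → β → Prop) (T : Finset β) {p : β} (hp : p ∈ T) :
    Chain r T 0 p :=
  ⟨fun _ => p, fun _ _ => hp, fun i hi => absurd hi (Nat.not_lt_zero i), rfl⟩

lemma Chain.succ {β : Type} {r : β → β → Prop} {T : Finset β} {k : ℕ} {p p' : β}
    (h : Chain r T k p) (hp' : p' ∈ T) (hr : r p p') : Chain r T (k + 1) p' := by
  obtain ⟨s, h1, h2, h3⟩ := h
  refine ⟨fun i => if i ≤ k then s i else p', ?_, ?_, ?_⟩
  · intro i hi
    dsimp only
    split_ifs with h
    · exact h1 i h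
    · exact hp'
  · intro i hi
    dsimp only
    rw [if_pos (by omega : i ≤ k)]
    by_cases hik : i = k
    · subst hik
      rw [if_neg (by omega), h3]
      exact hr
    · rw [if_pos (by omega)]
      exact h2 i (by omega)
  · dsimp only
    rw [if_neg (by omega)]

open Classical in
/-- length of the longest chain ending at `p`, at most `N` -/
def label {β : Type} (r : β → β → Prop) (T : Finset β) (N : ℕ) (p : β) : ℕ :=
  Nat.findGreatest (fun k => Chain r T k p) N

open Classical in
lemma label_le {β : Type} (r : β → β → Prop) (T : Finset β) (N : ℕ) (p : β) :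
    label r T N p ≤ N := Nat.findGreatest_le _

open Classical in
lemma label_lt {β : Type} (r : β → β → Prop) (T : Finset β) (N : ℕ)
    (hno : ∀ p, ¬ Chain r T N p) {p p' : β} (hp : p ∈ T) (hp' : p' ∈ T) (hr : r p p') :
    label r T N p < label r T N p' := by
  have h1 : Chain r T (label r T N p) p := by
    exact Nat.findGreatest_spec (P := fun k => Chain r T k p) (Nat.zero_le N) (chain_zero r T hp)
  have h2 : label r T N p < N := by
    refine lt_of_le_of_ne (label_le r T N p) ?_
    intro h
    rw [h] at h1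
    exact hno p h1
  have h3 : Chain r T (label r T N p + 1) p' := h1.succ hp' hr
  have h4 : label r T N p + 1 ≤ label r T N p' := by
    exact Nat.le_findGreatest (P := fun k => Chain r T k p') (m := label r T N p + 1) h2 h3
  omega

lemma exists_idx {β γ : Type} (T : Finset β) (f : β → γ) (C : ℕ) [DecidableEq γ]
    (h : ∀ c, (T.filter (fun p => f p = c)).card ≤ C) :
    ∃ g : β → Fin (C + 1), ∀ p ∈ T, ∀ p' ∈ T, f p = f p' → g p = g p' → p = p' := by
  classical
  have hemb : ∀ c, Nonempty ((T.filter (fun p => f p = c) : Finset β) ↪ Fin (C + 1)) := by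
    intro c
    apply Function.Embedding.nonempty_of_card_le
    rw [Fintype.card_coe, Fintype.card_fin]
    exact (h c).trans (Nat.le_succ C)
  let e := fun c => (hemb c).some
  refine ⟨fun p => if h : p ∈ T then e (f p) ⟨p, Finset.mem_filter.2 ⟨h, rfl⟩⟩ else 0, ?_⟩
  intro p hp p' hp' hf hg
  simp only [dif_pos hp, dif_pos hp'] at hg
  have key : ∀ (c c' : γ) (_ : c = c') (hc : f p = c) (hc' : f p' = c'),
      e c ⟨p, Finset.mem_filter.2 ⟨hp, hc⟩⟩ = e c' ⟨p', Finset.mem_filter.2 ⟨hp', hc'⟩⟩ →
      p = p' := by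
    intro c c' hcc hc hc' h
    subst hcc
    have := (e c).injective h
    simpa using this
  exact key (f p) (f p') hf rfl rfl hg

lemma exists_sort {ι : Type} [DecidableEq ι] {n : ℕ} (K : Finset ι) (hK : K.card = n) (δ : ι → ℤ)
    (hδ : ∀ j ∈ K, ∀ j' ∈ K, δ j = δ j' → j = j') :
    ∃ σ : Fin n → ι, Function.Injective σ ∧ (∀ j, j ∈ K ↔ ∃ k, σ k = j) ∧
      ∀ k l, k < l → δ (σ k) < δ (σ l) := by
  have hS : (K.image δ).card = n := by
    rw [Finset.card_image_of_injOn, hK]
    intro j hj j' hj' h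
    exact hδ j hj j' hj' h
  have h1 : ∀ i, ∃ j ∈ K, δ j = (K.image δ).orderEmbOfFin hS i := by
    intro i
    exact Finset.mem_image.1 (Finset.orderEmbOfFin_mem (K.image δ) hS i)
  choose σ hσK hσ using h1
  have hlt : ∀ k l, k < l → δ (σ k) < δ (σ l) := by
    intro k l hkl
    rw [hσ, hσ]
    exact ((K.image δ).orderEmbOfFin hS).strictMono hkl
  refine ⟨σ, ?_, ?_, hlt⟩
  · intro k l hkl
    rcases lt_trichotomy k l with h | h | h
    · have := hlt k l h
      rw [hkl] at this
      exact absurd this (lt_irrefl _)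
    · exact h
    · have := hlt l k h
      rw [hkl] at this
      exact absurd this (lt_irrefl _)
  · intro j
    constructor
    · intro hj
      have h2 : δ j ∈ Set.range ((K.image δ).orderEmbOfFin hS) := by
        rw [Finset.range_orderEmbOfFin]
        simpa using ⟨j, hj, rfl⟩
      obtain ⟨i, hi⟩ := h2
      exact ⟨i, hδ _ (hσK i) _ hj (by rw [hσ, hi])⟩
    · rintro ⟨k, rfl⟩
      exact hσK k

section Main

variable {ι : Type} [Fintype ι] [DecidableEq ι]

/-- all differences of columns (in the order `σ`) increase by at least `G` -/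
def Gap (G : ℤ) {n : ℕ} (σ : Fin n → ι) (p p' : ι → ℤ) : Prop :=
  ∀ k l : Fin n, k < l → G ≤ (p' (σ l) - p' (σ k)) - (p (σ l) - p (σ k))

/-- A long chain yields a lattice point in two disjoint simplices. -/
lemma long_chain {α : ℝ} (hα : 1 < α) {n : ℕ} (hn : 2 ≤ n) (g : ℕ) (hg1 : 1 ≤ g)
    (hg : (n : ℝ) * (α⁻¹) ^ g ≤ 1 / 4) (K : Finset ι) (σ : Fin n → ι)
    (hσ : Function.Injective σ) (hK : ∀ j, j ∈ K ↔ ∃ k, σ k = j) (T : Finset (ι → ℤ))
    (hT : ∀ j, j ∉ K → ∃ l ∈ K, ∃ s : ℤ, ∀ p ∈ T, p j = p l + s)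
    (p : ι → ℤ) (hch : Chain (Gap (2 * (g : ℤ)) σ) T (2 * n) p) : ¬ Crit α T := by
  have hα0 : 0 < α := by linarith
  obtain ⟨s, hsT, hsr, -⟩ := hch
  -- columns indexed by natural numbers
  let c : ℕ → ι := fun k => if h : k < n then σ ⟨k, h⟩ else σ ⟨0, by omega⟩
  have hc : ∀ k : Fin n, c k = σ k := fun k => by
    simp only [c, dif_pos k.2]
  have hstep : ∀ i < 2 * n, ∀ k l, k < l → l < n →
      2 * (g : ℤ) ≤ (s (i + 1) (c l) - s (i + 1) (c k)) - (s i (c l) - s i (c k)) := by
    intro i hi k l hkl hl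
    have := hsr i hi ⟨k, by omega⟩ ⟨l, hl⟩ (by simpa using hkl)
    simpa [c, hl, (by omega : k < n)] using this
  have hg0 : (0 : ℤ) ≤ g := Int.natCast_nonneg g
  have hg1' : (1 : ℤ) ≤ g := by exact_mod_cast hg1
  have hmono : ∀ i j, i < j → j ≤ 2 * n → ∀ k l, k < l → l < n →
      2 * (g : ℤ) ≤ (s j (c l) - s j (c k)) - (s i (c l) - s i (c k)) := by
    intro i j hij
    induction j, hij using Nat.le_induction with
    | base =>
      intro hj k l hkl hl
      exact hstep i (by omega) k l hkl hl
    | succ j hj ih =>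
      intro hj2 k l hkl hl
      have h1 := ih (by omega) k l hkl hl
      have h2 := hstep j (by omega) k l hkl hl
      linarith
  let F : ℕ → ℤ := fun t => s (2 * t + 1) (c (t + 1)) - s (2 * t + 1) (c t) + g
  let Q : ℕ → ℤ := fun k => ∑ t ∈ Finset.range k, F t
  have hQ : ∀ k, Q (k + 1) = Q k + F k := fun k => Finset.sum_range_succ F k
  have hA : ∀ i κ, i ≤ 2 * κ + 1 → ∀ k, κ ≤ k → k < n →
      s i (c k) - s i (c κ) + g * ((k : ℤ) - κ) ≤ Q k - Q κ := by
    intro i κ hi k hk
    induction k, hk using Nat.le_induction with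
    | base => intro _; simp
    | succ k hk ih =>
      intro hkn
      have h1 := ih (by omega)
      have h2 : s i (c (k + 1)) - s i (c k) + g ≤ F k := by
        rcases Nat.lt_or_ge i (2 * k + 1) with h | h
        · have := hmono i (2 * k + 1) h (by omega) k (k + 1) (by omega) hkn
          simp only [F]
          linarith
        · have : i = 2 * k + 1 := by omega
          subst this
          simp only [F]
          exact le_rfl
      rw [hQ]
      push_cast
      nlinarith
  have hB : ∀ i, i ≤ 2 * n → ∀ k κ, k ≤ κ → κ < n → 2 * κ ≤ i →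
      Q κ - Q k + g * ((κ : ℤ) - k) ≤ s i (c κ) - s i (c k) := by
    intro i hi k κ hk
    induction κ, hk using Nat.le_induction with
    | base => intro _ _; simp
    | succ κ hκ ih =>
      intro hκn hκi
      have h1 := ih (by omega) (by omega)
      have h2 : F κ + g ≤ s i (c (κ + 1)) - s i (c κ) := by
        have := hmono (2 * κ + 1) i (by omega) hi κ (κ + 1) (by omega) hκn
        simp only [F]
        linarith
      rw [hQ]
      push_cast
      nlinarith
  -- the relation for one of the two simplices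
  choose! l hlK hs' using hT
  choose! sh hsh using hs'
  let q0 : ι → ℤ := Function.extend σ (fun k : Fin n => Q k) 0
  have hq0 : ∀ k : Fin n, q0 (σ k) = Q k := fun k => hσ.extend_apply _ _ k
  let q : ι → ℤ := fun j => if j ∈ K then q0 j else q0 (l j) + sh j
  have hrel : ∀ e : ℕ, e ≤ 1 → ∀ A : Finset (ι → ℤ), A ⊆ T → (∀ j : Fin n, s (2 * j + e) ∈ A) →
      Rel α A q := by
    intro e he A hAT hmem
    let M : Matrix (Fin n) (Fin n) ℝ := fun j k =>
      α ^ (s (2 * (j : ℕ) + e) (σ k) - s (2 * (j : ℕ) + e) (σ j) + Q j - Q k)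
    obtain ⟨w, hw0, hw⟩ := exists_solution M ((α⁻¹) ^ g) (by positivity) hg
      (fun k => by simp [M]) (fun i k => by simp only [M]; positivity)
      (fun j k hjk => by
        have hexp : s (2 * (j : ℕ) + e) (σ k) - s (2 * (j : ℕ) + e) (σ j) + Q j - Q k ≤ -(g : ℤ) := by
          have hj2 := j.2
          have hk2 := k.2
          rcases lt_or_gt_of_ne (fun h : (j : ℕ) = k => hjk (Fin.ext h)) with h | h
          · have h1 := hA (2 * j + e) j (by omega) k h.le hk2
            rw [hc, hc] at h1
            have h2 : (1 : ℤ) ≤ (k : ℤ) - j := by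
              have : ((j : ℕ) : ℤ) < (k : ℕ) := by exact_mod_cast h
              linarith
            nlinarith
          · have h1 := hB (2 * j + e) (by omega) k j h.le hj2 (by omega)
            rw [hc, hc] at h1
            have h2 : (1 : ℤ) ≤ (j : ℤ) - k := by
              have : ((k : ℕ) : ℤ) < (j : ℕ) := by exact_mod_cast h
              linarith
            nlinarith
        have : (α⁻¹) ^ g = α ^ (-(g : ℤ)) := by
          rw [zpow_neg, zpow_natCast, inv_pow]
        rw [this]
        exact zpow_le_zpow_right₀ hα.le hexp)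
    refine rel_of_sum A q (fun j : Fin n => s (2 * j + e)) hmem
      (fun j => w j * α ^ (Q j - s (2 * (j : ℕ) + e) (σ j)))
      (fun j => mul_nonneg (hw0 j) (by positivity)) ?_
    have hcol : ∀ k : Fin n, ∑ j : Fin n, w j * α ^ (Q j - s (2 * (j : ℕ) + e) (σ j)) *
        α ^ (s (2 * (j : ℕ) + e) (σ k)) = α ^ (Q k) := by
      intro k
      have h1 : ∀ j : Fin n, w j * α ^ (Q j - s (2 * (j : ℕ) + e) (σ j)) *
        α ^ (s (2 * (j : ℕ) + e) (σ k)) = (w j * M j k) * α ^ (Q k) := by
        intro j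
        simp only [M]
        rw [mul_assoc, mul_assoc, ← zpow_add₀ hα0.ne', ← zpow_add₀ hα0.ne']
        congr 2
        ring
      rw [Finset.sum_congr rfl fun j _ => h1 j, ← Finset.sum_mul, hw k, one_mul]
    intro cc
    by_cases hcc : cc ∈ K
    · obtain ⟨k, rfl⟩ := (hK cc).1 hcc
      simp only [q, if_pos hcc, hq0]
      exact hcol k
    · obtain ⟨k, hk⟩ := (hK (l cc)).1 (hlK cc hcc)
      simp only [q, if_neg hcc]
      rw [← hk, hq0, zpow_add₀ hα0.ne', ← hcol k, Finset.sum_mul]
      refine Finset.sum_congr rfl fun j _ => ?_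
      have h1 := hsh cc hcc (s (2 * (j : ℕ) + e)) (hAT (hmem j))
      rw [h1, hk, zpow_add₀ hα0.ne']
      ring
  have hne : ∀ i j, i < j → j ≤ 2 * n → s i ≠ s j := by
    intro i j hij hj h
    have := hmono i j hij hj 0 1 (by omega) (by omega)
    rw [h] at this
    omega
  intro hcrit
  obtain ⟨p0, hp0, hnot⟩ := hcrit q
  apply hnot
  by_cases hp : ∃ j : Fin n, s (2 * j) = p0
  · obtain ⟨j0, hj0⟩ := hp
    refine hrel 1 le_rfl _ (Finset.erase_subset _ _) (fun j => ?_)
    refine Finset.mem_erase.2 ⟨?_, hsT _ (by omega)⟩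
    rw [← hj0]
    intro h
    rcases Nat.lt_or_ge (2 * (j : ℕ) + 1) (2 * j0) with h1 | h1
    · exact hne _ _ h1 (by omega) h
    · exact hne (2 * j0) (2 * j + 1) (by omega) (by omega) h.symm
  · push Not at hp
    refine hrel 0 (by omega) _ (Finset.erase_subset _ _) (fun j => ?_)
    exact Finset.mem_erase.2 ⟨hp j, hsT _ (by omega)⟩

/-- Critical sets have bounded size. -/
theorem bound {α : ℝ} (hα : 1 < α) (m : ℕ) : ∃ C : ℕ, ∀ K : Finset ι, K.card = m + 1 →
    ∀ T : Finset (ι → ℤ), (∀ j, j ∉ K → ∃ l ∈ K, ∃ s : ℤ, ∀ p ∈ T, p j = p l + s) →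
    (∀ p ∈ T, ∀ p' ∈ T, (∃ c : ℤ, ∀ j, p j = p' j + c) → p = p') → Crit α T → T.card ≤ C := by
  induction m with
  | zero =>
    refine ⟨1, fun K hK T hT hd _ => ?_⟩
    obtain ⟨k, rfl⟩ := Finset.card_eq_one.1 hK
    rw [Finset.card_le_one]
    intro p hp p' hp'
    apply hd p hp p' hp'
    refine ⟨p k - p' k, fun j => ?_⟩
    by_cases hj : j = k
    · subst hj; ring
    · obtain ⟨l, hl, s, hs⟩ := hT j (by simpa using hj)
      rw [Finset.mem_singleton] at hl
      subst hl
      rw [hs p hp, hs p' hp']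
      ring
  | succ m ih =>
    obtain ⟨C, hC⟩ := ih
    set n := m + 2 with hn
    have hα1 : α⁻¹ < 1 := inv_lt_one_of_one_lt₀ hα
    have hα0 : 0 < α⁻¹ := by positivity
    obtain ⟨g0, hg0⟩ := exists_pow_lt_of_lt_one (show (0 : ℝ) < 1 / (4 * n) by positivity) hα1
    let g := g0 + 1
    have hg1 : 1 ≤ g := Nat.le_add_left 1 g0
    have hg : (n : ℝ) * (α⁻¹) ^ g ≤ 1 / 4 := by
      have h1 : (α⁻¹) ^ g ≤ 1 / (4 * n) :=
        (pow_le_pow_of_le_one hα0.le hα1.le (Nat.le_succ g0)).trans hg0.le
      have h2 : (0 : ℝ) < n := by positivity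
      calc (n : ℝ) * (α⁻¹) ^ g ≤ n * (1 / (4 * n)) := mul_le_mul_of_nonneg_left h1 h2.le
        _ = 1 / 4 := by field_simp
    have : NeZero (2 * g) := ⟨by omega⟩
    refine ⟨Fintype.card ((ι → ZMod (2 * g)) × (ι × ι → Fin (C + 1)) ×
      ((Fin n → ι) → Fin (2 * n + 1))), fun K hK T hT hd hcrit => ?_⟩
    -- positions in the fibres
    have hidx : ∀ kl : ι × ι, ∃ e : (ι → ℤ) → Fin (C + 1), kl.1 ∈ K → kl.2 ∈ K → kl.1 ≠ kl.2 →
        ∀ p ∈ T, ∀ p' ∈ T, p kl.1 - p kl.2 = p' kl.1 - p' kl.2 → e p = e p' → p = p' := by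
      rintro ⟨k, l⟩
      by_cases hkl : k ∈ K ∧ l ∈ K ∧ k ≠ l
      · obtain ⟨hk, hl, hkl⟩ := hkl
        obtain ⟨e, he⟩ := exists_idx T (fun p : ι → ℤ => p k - p l) C (by
          intro c
          rcases (T.filter (fun p => p k - p l = c)).eq_empty_or_nonempty with h | h
          · rw [h]; simp
          · refine hC (K.erase k) (by rw [Finset.card_erase_of_mem hk, hK]; rfl) _ ?_ ?_
              (hcrit.mono (Finset.filter_subset _ _) h)
            · intro j hj
              have hlK : l ∈ K.erase k := Finset.mem_erase.2 ⟨hkl.symm, hl⟩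
              by_cases hjk : j = k
              · subst hjk
                refine ⟨l, hlK, c, fun p hp => ?_⟩
                have := (Finset.mem_filter.1 hp).2
                linarith
              · have hjK : j ∉ K := fun h => hj (Finset.mem_erase.2 ⟨hjk, h⟩)
                obtain ⟨l', hl', s, hs⟩ := hT j hjK
                by_cases hlk : l' = k
                · subst hlk
                  refine ⟨l, hlK, c + s, fun p hp => ?_⟩
                  have h1 := (Finset.mem_filter.1 hp).2
                  have h2 := hs p (Finset.mem_filter.1 hp).1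
                  linarith
                · exact ⟨l', Finset.mem_erase.2 ⟨hlk, hl'⟩, s,
                    fun p hp => hs p (Finset.mem_filter.1 hp).1⟩
            · intro p hp p' hp' h
              exact hd p (Finset.mem_filter.1 hp).1 p' (Finset.mem_filter.1 hp').1 h)
        exact ⟨e, fun _ _ _ => he⟩
      · exact ⟨fun _ => 0, fun h1 h2 h3 => absurd ⟨h1, h2, h3⟩ hkl⟩
    choose e he using hidx
    have hno : ∀ σ : Fin n → ι, Function.Injective σ → (∀ j, j ∈ K ↔ ∃ k, σ k = j) →
        ∀ p, ¬ Chain (Gap (2 * (g : ℤ)) σ) T (2 * n) p := by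
      intro σ hσ hσK p hch
      exact long_chain hα (by omega) g hg1 hg K σ hσ hσK T hT p hch hcrit
    let Φ : (ι → ℤ) → (ι → ZMod (2 * g)) × (ι × ι → Fin (C + 1)) ×
        ((Fin n → ι) → Fin (2 * n + 1)) := fun p =>
      (fun k => (p k : ZMod (2 * g)), fun kl => e kl p,
        fun σ => ⟨label (Gap (2 * (g : ℤ)) σ) T (2 * n) p, Nat.lt_succ_of_le (label_le _ _ _ _)⟩)
    have hinj : Set.InjOn Φ T := by
      intro p hp p' hp' hΦ
      by_contra hne
      simp only [Φ, Prod.mk.injEq] at hΦ
      obtain ⟨h1, h2, h3⟩ := hΦ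
      have hdvd : ∀ j, ((2 * g : ℕ) : ℤ) ∣ p' j - p j := fun j =>
        (ZMod.intCast_eq_intCast_iff_dvd_sub (p j) (p' j) (2 * g)).1 (congrFun h1 j)
      obtain ⟨σ, hσ, hσK, hlt⟩ := exists_sort K hK (fun j => p' j - p j) (by
        intro j hj j' hj' h
        by_contra hjj
        exact hne (he (j, j') hj hj' hjj p hp p' hp' (by simp only at h ⊢; linarith)
          (congrFun h2 (j, j'))))
      have hgap : Gap (2 * (g : ℤ)) σ p p' := by
        intro k l hkl
        have h4 : p' (σ k) - p (σ k) < p' (σ l) - p (σ l) := hlt k l hkl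
        have h5 : ((2 * g : ℕ) : ℤ) ∣ (p' (σ l) - p (σ l)) - (p' (σ k) - p (σ k)) :=
          dvd_sub (hdvd _) (hdvd _)
        have h6 := Int.le_of_dvd (by linarith) h5
        push_cast at h6
        linarith
      have h7 := label_lt (Gap (2 * (g : ℤ)) σ) T (2 * n) (hno σ hσ hσK) hp hp' hgap
      have h8 := congrArg Fin.val (congrFun h3 σ)
      simp only at h8
      omega
    have := Finset.card_le_card_of_injOn (t := Finset.univ) Φ (fun _ _ => Finset.mem_univ _) hinj
    rwa [Finset.card_univ] at this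

end Main

/-- A bound for critical sets gives the Helly property. -/
lemma helly_of_bound {α : ℝ} (hα : 1 < α) (d : ℕ) (h : ℕ)
    (hb : ∀ T : Finset (Option (Fin d) → ℤ), (∀ p ∈ T, p none = 0) → Crit α T → T.card ≤ h) :
    HellyProperty (expLattice α d) h := by
  classical
  have hα0 : 0 < α := by linarith
  intro F
  induction hm : F.card using Nat.strong_induction_on generalizing F with
  | _ m ih =>
  intro hconv hsub
  rcases Nat.lt_or_ge h F.card with hlt | hge
  swap
  · exact hsub F Finset.Subset.rfl hge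
  have hpt : ∀ C : Set (Fin d → ℝ), ∃ a : Fin d → ℕ, C ∈ F →
      ∀ C' ∈ F, C' ≠ C → (fun i => α ^ (a i)) ∈ C' := by
    intro C
    by_cases hC : C ∈ F
    · obtain ⟨x, hxS, hx⟩ := ih (F.erase C).card (by
        rw [← hm]; exact Finset.card_erase_lt_of_mem hC) (F.erase C) rfl
        (fun C' hC' => hconv C' (Finset.mem_of_mem_erase hC'))
        (fun G hG hGc => hsub G (hG.trans (Finset.erase_subset _ _)) hGc)
      choose a ha using hxS
      refine ⟨a, fun _ C' hC' hne => ?_⟩
      have : (fun i => α ^ (a i)) = x := funext fun i => (ha i).symm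
      rw [this]
      exact hx C' (Finset.mem_erase.2 ⟨hne, hC'⟩)
    · exact ⟨0, fun h => absurd h hC⟩
  choose a ha using hpt
  by_cases hinj : ∃ C ∈ F, ∃ C' ∈ F, C ≠ C' ∧ a C = a C'
  · obtain ⟨C, hC, C', hC', hne, haa⟩ := hinj
    refine ⟨fun i => α ^ (a C i), fun i => ⟨a C i, rfl⟩, fun D hD => ?_⟩
    by_cases hDC : D = C
    · rw [haa]
      exact ha C' hC' D hD (by rw [hDC]; exact hne)
    · exact ha C hC D hD hDC
  push Not at hinj
  let u : Set (Fin d → ℝ) → (Option (Fin d) → ℤ) := fun C o => o.elim 0 (fun i => (a C i : ℤ))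
  have huinj : Set.InjOn u F := by
    intro C hC C' hC' huu
    by_contra hne
    apply hinj C hC C' hC' hne
    funext i
    have := congrFun huu (some i)
    simpa [u] using this
  have hcard : (F.image u).card = F.card := Finset.card_image_of_injOn huinj
  have hnc : ¬ Crit α (F.image u) := by
    intro hcr
    have := hb (F.image u) (by
      intro p hp
      obtain ⟨C, -, rfl⟩ := Finset.mem_image.1 hp
      rfl) hcr
    omega
  unfold Crit at hnc
  push Not at hnc
  obtain ⟨q, hq⟩ := hnc
  -- the common point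
  have hz : ∀ C ∈ F, (fun i => α ^ (q (some i) - q none)) ∈ C ∧
      ∀ i, 1 ≤ α ^ (q (some i) - q none) := by
    intro C hC
    obtain ⟨w, hw0, hw⟩ := hq (u C) (Finset.mem_image_of_mem u hC)
    have hq0 : (0 : ℝ) < α ^ (q none) := zpow_pos hα0 _
    have hsum : ∑ p ∈ (F.image u).erase (u C), w p / α ^ (q none) = 1 := by
      rw [← Finset.sum_div, div_eq_one_iff_eq hq0.ne', ← hw none]
      refine Finset.sum_congr rfl fun p hp => ?_
      obtain ⟨C', -, rfl⟩ := Finset.mem_image.1 (Finset.mem_of_mem_erase hp)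
      simp [u]
    have hcomb : ∀ i, α ^ (q (some i) - q none) =
        ∑ p ∈ (F.image u).erase (u C), w p / α ^ (q none) * α ^ (p (some i)) := by
      intro i
      rw [zpow_sub₀ hα0.ne', ← hw (some i), Finset.sum_div]
      refine Finset.sum_congr rfl fun p _ => ?_
      ring
    constructor
    · have h1 := (hconv C hC).sum_mem (t := (F.image u).erase (u C))
        (w := fun p => w p / α ^ (q none)) (z := fun p i => α ^ (p (some i)))
        (fun p _ => div_nonneg (hw0 p) hq0.le) hsum (fun p hp => by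
          obtain ⟨hne, hp'⟩ := Finset.mem_erase.1 hp
          obtain ⟨C', hC', rfl⟩ := Finset.mem_image.1 hp'
          have hne' : C ≠ C' := fun h => hne (by rw [h])
          have := ha C' hC' C hC hne'
          simpa [u] using this)
      convert h1 using 1
      funext i
      rw [hcomb i, Finset.sum_apply]
      rfl
    · intro i
      rw [hcomb i]
      calc (1 : ℝ) = ∑ p ∈ (F.image u).erase (u C), w p / α ^ (q none) := hsum.symm
        _ ≤ _ := by
          refine Finset.sum_le_sum fun p hp => ?_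
          obtain ⟨C', -, rfl⟩ := Finset.mem_image.1 (Finset.mem_of_mem_erase hp)
          have : (1 : ℝ) ≤ α ^ (u C' (some i)) := by
            simp only [u, Option.elim_some, zpow_natCast]
            exact one_le_pow₀ hα.le
          exact le_mul_of_one_le_right (div_nonneg (hw0 _) hq0.le) this
  have hFne : F.Nonempty := by
    rw [← Finset.card_pos]; omega
  obtain ⟨C0, hC0⟩ := hFne
  refine ⟨fun i => α ^ (q (some i) - q none), fun i => ?_, fun C hC => (hz C hC).1⟩
  have h1 := (hz C0 hC0).2 i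
  have h2 : 0 ≤ q (some i) - q none := by
    by_contra hneg
    push Not at hneg
    exact absurd h1 (not_le.2 (zpow_lt_one_of_neg₀ hα hneg))
  obtain ⟨k, hk⟩ := Int.eq_ofNat_of_zero_le h2
  refine ⟨k, ?_⟩
  dsimp only
  rw [hk, zpow_natCast]

/-- **Main theorem.** For every real `α > 1` and every dimension `d` the Helly number of the
exponential lattice `L_d(α)` is finite. -/
theorem result : ∀ α : ℝ, 1 < α → ∀ d : ℕ, hellyNumber (expLattice α d) < ⊤ := by
  intro α hα d
  obtain ⟨C, hC⟩ := bound (ι := Option (Fin d)) hα d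
  have h1 : HellyProperty (expLattice α d) C := by
    apply helly_of_bound hα d C
    intro T h0 hcr
    refine hC Finset.univ (by simp) T (fun j hj => absurd (Finset.mem_univ j) hj) ?_ hcr
    rintro p hp p' hp' ⟨c, hc⟩
    have hc0 : c = 0 := by
      have := hc none
      rw [h0 p hp, h0 p' hp'] at this
      linarith
    funext j
    rw [hc j, hc0, add_zero]
  exact lt_of_le_of_lt (iInf₂_le C h1) (ENat.natCast_lt_top C)

end Pool.Agent.Results.MP_a46e5c_co.FiniteHelly
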